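import Pool.Agent.Lib.MP_67c02a_lc.Final

open Pool.Agent.Lib.MP_67c02a_lc

theorem Pool.Agent.Results.MP_67c02a_lc.NearLogQuasiPoly.result
    (a : ℝ) (ha : a < 1) (ρ : ℕ → ℝ) (hρ : ρ =O[Filter.atTop] fun n : ℕ => Real.log n ^ a)
    (A : List (ℚ × ℚ) → List (ℚ × ℚ × ℚ)) (hA : N68a2faeb.IsPolyTime A)
    (h : ∀ S, S.Nodup → Covers (A S) S ∧ ((A S).length : ℝ) ≤ ρ S.length * LC S) :
    ∀ L ∈ N68a2faeb.NP, ∃ d : ℕ, L ∈ BPT fun n => 2 ^ Nat.log 2 n ^ d :=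
  near_log_quasi ha hρ hA h
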