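import Pool.Agent.Lib.MP_67c02a_lc.Final

open Pool.Agent.Lib.MP_67c02a_lc

theorem Pool.Agent.Results.MP_67c02a_lc.NearLogSubexp.result
    (ρ : ℕ → ℝ)
    (hρ : ρ =o[Filter.atTop] fun n : ℕ => Real.log n / Real.log (Real.log n) ^ 4)
    (A : List (ℚ × ℚ) → List (ℚ × ℚ × ℚ)) (hA : N68a2faeb.IsPolyTime A)
    (h : ∀ S, S.Nodup → Covers (A S) S ∧ ((A S).length : ℝ) ≤ ρ S.length * LC S) :
    ∀ L ∈ N68a2faeb.NP, ∀ d : ℕ, 0 < d → L ∈ BPT fun n => 2 ^ ⌊(n : ℝ) ^ (1 / d : ℝ)⌋₊ :=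
  near_log_subexp hρ hA h
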