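import Pool.Agent.Lib.MP_67c02a_lc.Main

open Pool.Agent.Lib.MP_67c02a_lc

theorem Pool.Agent.Results.MP_67c02a_lc.NoConstantFactor.result
    (c : ℝ) (A : List (ℚ × ℚ) → List (ℚ × ℚ × ℚ)) (hA : N68a2faeb.IsPolyTime A)
    (h : ∀ S, S.Nodup → Covers (A S) S ∧ ((A S).length : ℝ) ≤ c * LC S) :
    N68a2faeb.P = N68a2faeb.NP :=
  no_approx c A hA h
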